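import Pool.Agent.N669.CQ.Stm

/-! # Project CQ, part UPA: circumscribed quadrilaterals (helper614) -/

set_option autoImplicit false

namespace Pool.Agent.N614.CQ

open MeasureTheory Set
open Pool.Agent.N669.CQ

/-- Half planes are convex. -/
theorem convex_half (p q : P) : Convex ℝ {x : P | 0 ≤ cr (q - p) (x - p)} := by
  intro x hx y hy s t hs ht hst
  have hx' : 0 ≤ cr (q - p) (x - p) := hx
  have hy' : 0 ≤ cr (q - p) (y - p) := hy
  show 0 ≤ cr (q - p) (s • x + t • y - p)
  have h : cr (q - p) (s • x + t • y - p) =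
      s * cr (q - p) (x - p) + t * cr (q - p) (y - p) := by
    simp only [cr, Prod.fst_sub, Prod.snd_sub, Prod.fst_add, Prod.snd_add, Prod.smul_fst,
      Prod.smul_snd, smul_eq_mul]
    linear_combination ((q.1 - p.1) * p.2 - (q.2 - p.2) * p.1) * hst
  rw [h]
  positivity

theorem t_UPA (h1 : S_TRI) (h2 : S_HUL) : S_UPA := by
  intro a b c d hT
  have ha := hT.ta
  have hb := hT.tb
  have hc := hT.tc
  have hd := hT.td
  have s1 : ({a, b, c} : Set P) ⊆ {a, b, c, d} := by
    intro x hx
    simp only [mem_insert_iff, mem_singleton_iff] at hx ⊢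
    tauto
  have s2 : ({a, c, d} : Set P) ⊆ {a, b, c, d} := by
    intro x hx
    simp only [mem_insert_iff, mem_singleton_iff] at hx ⊢
    tauto
  refine ⟨fun K hK k hk => ?_, ?_⟩
  · rcases h2 a b c d k hT (hK.ab k hk) (hK.bc k hk) (hK.cd k hk) (hK.da k hk) with h | h
    · exact convexHull_mono s1 h
    · exact convexHull_mono s2 h
  · have hsub : convexHull ℝ {a, b, c, d} ⊆ convexHull ℝ {a, b, c} ∪ convexHull ℝ {a, c, d} := by
      intro x hx
      have key : ∀ p q : P, 0 ≤ cr (q - p) (a - p) → 0 ≤ cr (q - p) (b - p) →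
          0 ≤ cr (q - p) (c - p) → 0 ≤ cr (q - p) (d - p) → 0 ≤ cr (q - p) (x - p) := by
        intro p q e1 e2 e3 e4
        have hs : ({a, b, c, d} : Set P) ⊆ {x : P | 0 ≤ cr (q - p) (x - p)} := by
          intro y hy
          simp only [mem_insert_iff, mem_singleton_iff] at hy
          rcases hy with rfl | rfl | rfl | rfl
          · exact e1
          · exact e2
          · exact e3
          · exact e4
        exact convexHull_min hs (convex_half p q) hx
      refine h2 a b c d x hT (key a b ?_ ?_ ?_ ?_) (key b c ?_ ?_ ?_ ?_) (key c d ?_ ?_ ?_ ?_)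
        (key d a ?_ ?_ ?_ ?_) <;>
      simp only [cr, Prod.fst_sub, Prod.snd_sub] at ha hb hc hd ⊢ <;>
      linarith
    have e1 : 0 < cr (b - a) (c - a) := by
      simp only [cr, Prod.fst_sub, Prod.snd_sub] at ha hb hc hd ⊢
      linarith
    have e2 : 0 < cr (c - a) (d - a) := by
      simp only [cr, Prod.fst_sub, Prod.snd_sub] at ha hb hc hd ⊢
      linarith
    have e3 : ar a b c d = |cr (b - a) (c - a)| / 2 + |cr (c - a) (d - a)| / 2 := by
      rw [abs_of_pos e1, abs_of_pos e2, ar]
      simp only [cr, Prod.fst_sub, Prod.snd_sub]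
      ring
    calc volume (convexHull ℝ {a, b, c, d})
        ≤ volume (convexHull ℝ {a, b, c} ∪ convexHull ℝ {a, c, d}) := measure_mono hsub
      _ ≤ volume (convexHull ℝ {a, b, c}) + volume (convexHull ℝ {a, c, d}) :=
          measure_union_le _ _
      _ = ENNReal.ofReal (ar a b c d) := by
          rw [h1, h1, e3, ENNReal.ofReal_add (by positivity) (by positivity)]

end Pool.Agent.N614.CQ
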